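import Pool.Agent.J6H36.AR.Defs3

/-!
# A connected finite system of arcs is a path or a cycle (module AR-5)
-/

set_option autoImplicit false

namespace Pool.Agent.J6H95.AR

open Pool.Agent.J6H36.AR

/-- `g 0, …, g (k-1)` is a path of `k` different arcs -/
def Pth {K : Type} (src tgt : K → ℕ) (k : ℕ) (g : ℕ → K) : Prop :=
  (∀ i < k, ∀ j < k, g i = g j → i = j) ∧ ∀ i, i + 1 < k → tgt (g i) = src (g (i + 1))

theorem exists_max {K : Type} (hK : Finite K) (x0 : K) (src tgt : K → ℕ) :
    ∃ k : ℕ, 0 < k ∧ (∃ g, Pth src tgt k g) ∧ ∀ g, ¬ Pth src tgt (k + 1) g := by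
  by_contra h
  push Not at h
  have h1 : ∀ k, ∃ g, Pth src tgt (k + 1) g := by
    intro k
    induction k with
    | zero => exact ⟨fun _ => x0, fun i hi j hj _ => by omega, fun i hi => by omega⟩
    | succ k ih =>
      exact h (k + 1) (Nat.succ_pos k) ih
  obtain ⟨g, hg⟩ := h1 (Nat.card K)
  have h2 : Function.Injective (fun i : Fin (Nat.card K + 1) => g i.1) :=
    fun i j hij => Fin.ext (hg.1 i.1 i.2 j.1 j.2 hij)
  have h3 := Nat.card_le_card_of_injective _ h2
  rw [Nat.card_fin] at h3
  omega

theorem cyc_apply (m : ℕ) (i j : ZMod m) :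
    cyc m i j = if i = j then 1 else if j = i + 1 ∨ i = j + 1 then 3 else 2 := rfl

theorem t_ARC : S_ARC := by
  intro K hK N src tgt hne hN hconn
  obtain ⟨⟨x0, -⟩, hcon⟩ := hconn
  have hsrc : ∀ β γ, src β = src γ → β = γ := fun β γ h => by
    by_contra h1
    exact (hN β γ h1).1 h
  have htgt : ∀ β γ, tgt β = tgt γ → β = γ := fun β γ h => by
    by_contra h1
    exact (hN β γ h1).2.1 h
  obtain ⟨k, hk, ⟨g, hg⟩, hmax⟩ := exists_max hK x0 src tgt
  -- the path cannot be extended
  have hend : ∀ β, (∀ i < k, g i ≠ β) → tgt (g (k - 1)) ≠ src β := by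
    intro β hβ he
    refine hmax (fun i => if i = k then β else g i) ⟨?_, ?_⟩
    · intro i hi j hj hij
      dsimp only at hij
      split_ifs at hij with h1 h2 h2
      · omega
      · exact absurd hij.symm (hβ j (by omega))
      · exact absurd hij (hβ i (by omega))
      · exact hg.1 i (by omega) j (by omega) hij
    · intro i hi
      have h1 : i ≠ k := by omega
      dsimp only
      rw [if_neg h1]
      by_cases h2 : i + 1 = k
      · rw [if_pos h2, ← he]
        congr 2
        omega
      · rw [if_neg h2]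
        exact hg.2 i (by omega)
  have hfront : ∀ β, (∀ i < k, g i ≠ β) → tgt β ≠ src (g 0) := by
    intro β hβ he
    refine hmax (fun i => if i = 0 then β else g (i - 1)) ⟨?_, ?_⟩
    · intro i hi j hj hij
      dsimp only at hij
      split_ifs at hij with h1 h2 h2
      · omega
      · exact absurd hij.symm (hβ _ (by omega))
      · exact absurd hij (hβ _ (by omega))
      · have := hg.1 _ (by omega) _ (by omega) hij
        omega
    · intro i hi
      dsimp only
      rw [if_neg (by omega : i + 1 ≠ 0)]
      by_cases h2 : i = 0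
      · subst h2
        rw [if_pos rfl, he]
      · rw [if_neg h2, hg.2 (i - 1) (by omega)]
        congr 2
        omega
  -- the path is everything
  have hall : ∀ β, ∃ i < k, g i = β := by
    by_contra hc
    push Not at hc
    obtain ⟨β, hβ⟩ := hc
    obtain ⟨x, ⟨i, hi, rfl⟩, y, ⟨-, hy⟩, hxy⟩ := hcon {x | ∃ i < k, g i = x} (Set.subset_univ _)
      ⟨g 0, 0, hk, rfl⟩ ⟨β, Set.mem_univ _, fun ⟨i, hi, h⟩ => hβ i hi h⟩
    have hy' : ∀ i < k, g i ≠ y := fun i hi h => hy ⟨i, hi, h⟩
    have h1 := (hN _ _ (hy' i hi)).2.2.2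
    rw [h1] at hxy
    split_ifs at hxy with h2
    · rcases h2 with h2 | h2
      · by_cases h3 : i = k - 1
        · subst h3
          exact hend y hy' h2
        · have h4 := hg.2 i (by omega)
          exact hy' (i + 1) (by omega) (hsrc _ _ (h4.symm.trans h2))
      · by_cases h3 : i = 0
        · subst h3
          exact hfront y hy' h2
        · have h4 := hg.2 (i - 1) (by omega)
          rw [Nat.sub_add_cancel (by omega : 1 ≤ i)] at h4
          exact hy' (i - 1) (by omega) (htgt _ _ (h4.trans h2.symm))
    · exact hxy rfl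
  choose f hfk hf using hall
  -- the relation in terms of the indices
  have hrel : ∀ x y, tgt x = src y → f y = f x + 1 ∨ (f x + 1 = k ∧ f y = 0) := by
    intro x y hxy
    by_cases h1 : f x + 1 < k
    · left
      have h2 := hg.2 (f x) h1
      rw [hf x, hxy] at h2
      have h3 := hsrc _ _ h2
      have h4 : g (f y) = g (f x + 1) := (hf y).trans h3
      exact hg.1 _ (hfk y) _ h1 h4
    · right
      refine ⟨by have := hfk x; omega, ?_⟩
      by_contra h2
      have h3 := hg.2 (f y - 1) (by have := hfk y; omega)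
      rw [Nat.sub_add_cancel (by omega : 1 ≤ f y), hf y, ← hxy] at h3
      have h4 : g (f y - 1) = g (f x) := (htgt _ _ h3).trans (hf x).symm
      have h5 := hg.1 _ (by have := hfk y; omega) _ (hfk x) h4
      have := hfk y
      omega
  have hrel' : ∀ x y, f y = f x + 1 → tgt x = src y := by
    intro x y hxy
    have h2 := hg.2 (f x) (by rw [← hxy]; exact hfk y)
    rwa [hf x, ← hxy, hf y] at h2
  have hfinj : ∀ x y, f x = f y → x = y := fun x y h => by rw [← hf x, h, hf y]
  have hlt : ∀ m : ℕ, k ≤ m → ∀ a b : ℕ, a < m → b < m → ((a : ZMod m) = (b : ZMod m) ↔ a = b) := by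
    intro m hm a b ha hb
    rw [ZMod.natCast_eq_natCast_iff, Nat.ModEq, Nat.mod_eq_of_lt ha, Nat.mod_eq_of_lt hb]
  by_cases hcyc : tgt (g (k - 1)) = src (g 0)
  · -- a cycle
    have hk3 : 3 ≤ k := by
      by_contra h3
      have h4 : k = 1 ∨ k = 2 := by omega
      rcases h4 with rfl | rfl
      · exact hne _ hcyc.symm
      · have h5 := hg.2 0 (by omega)
        have h6 : g 0 ≠ g 1 := fun h => by
          have := hg.1 0 (by omega) 1 (by omega) h
          omega
        exact (hN _ _ h6).2.2.1 ⟨h5, hcyc⟩
    have key : ∀ x y, ((f y : ℕ) : ZMod k) = ((f x : ℕ) : ZMod k) + 1 ↔ tgt x = src y := by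
      intro x y
      constructor
      · intro h
        by_cases h1 : f x + 1 < k
        · apply hrel'
          have h2 : ((f y : ℕ) : ZMod k) = ((f x + 1 : ℕ) : ZMod k) := by rw [h]; push_cast; rfl
          exact (hlt k le_rfl _ _ (hfk y) h1).1 h2
        · have h2 : f x + 1 = k := by have := hfk x; omega
          have h3 : ((f y : ℕ) : ZMod k) = ((0 : ℕ) : ZMod k) := by
            rw [h, ← Nat.cast_one, ← Nat.cast_add, h2, ZMod.natCast_self, Nat.cast_zero]
          have h4 := (hlt k le_rfl _ _ (hfk y) hk).1 h3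
          have h5 : x = g (k - 1) := by rw [← hf x]; congr 1; omega
          have h6 : y = g 0 := by rw [← hf y, h4]
          rw [h5, h6, hcyc]
      · intro h
        rcases hrel x y h with h1 | ⟨h1, h2⟩
        · rw [h1]
          push_cast
          rfl
        · rw [h2, ← Nat.cast_one, ← Nat.cast_add, h1, ZMod.natCast_self, Nat.cast_zero]
    refine ⟨k, hk3, fun x => ((f x : ℕ) : ZMod k), ?_, ?_⟩
    · intro x y hxy
      exact hfinj x y ((hlt k le_rfl _ _ (hfk x) (hfk y)).1 hxy)
    · intro x y
      rw [cyc_apply]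
      by_cases h : x = y
      · subst h
        rw [if_pos rfl, N.diagonal]
      · rw [if_neg (fun h1 => h (hfinj x y ((hlt k le_rfl _ _ (hfk x) (hfk y)).1 h1))),
          (hN x y h).2.2.2]
        simp only [key]
  · -- a path
    have key : ∀ x y, ((f y : ℕ) : ZMod (k + 2)) = ((f x : ℕ) : ZMod (k + 2)) + 1 ↔
        tgt x = src y := by
      intro x y
      have h2 : ((f x : ℕ) : ZMod (k + 2)) + 1 = ((f x + 1 : ℕ) : ZMod (k + 2)) := by
        push_cast
        rfl
      have hx := hfk x
      have hy := hfk y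
      rw [h2, hlt (k + 2) (by omega) _ _ (by omega) (by omega)]
      refine ⟨hrel' x y, fun h => ?_⟩
      rcases hrel x y h with h1 | ⟨h1, h3⟩
      · exact h1
      · exfalso
        apply hcyc
        have h5 : x = g (k - 1) := by rw [← hf x]; congr 1; omega
        have h6 : y = g 0 := by rw [← hf y, h3]
        rw [← h5, ← h6, h]
    refine ⟨k + 2, by omega, fun x => ((f x : ℕ) : ZMod (k + 2)), ?_, ?_⟩
    · intro x y hxy
      have hx := hfk x
      have hy := hfk y
      exact hfinj x y ((hlt (k + 2) (by omega) _ _ (by omega) (by omega)).1 hxy)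
    · intro x y
      have hx := hfk x
      have hy := hfk y
      rw [cyc_apply]
      by_cases h : x = y
      · subst h
        rw [if_pos rfl, N.diagonal]
      · rw [if_neg (fun h1 => h (hfinj x y
          ((hlt (k + 2) (by omega) _ _ (by omega) (by omega)).1 h1))), (hN x y h).2.2.2]
        simp only [key]

end Pool.Agent.J6H95.AR
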